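import Mathlib
import Pool.Agent.Helper467.FP.P_vn_dense
import Pool.Agent.H504R3.Tens

/-!
Tracial von Neumann algebras from a set of operators with a tracial vector.
-/

set_option autoImplicit false

open scoped InnerProductSpace
open Filter Topology

namespace Pool.Agent.U108.EC

open Pool.Agent.H467F (vnGen vnd_main vnd_D vnd_D_apply vnd_D_sub)
open Pool.Agent.H504R3 (TVN)

variable {H : Type} [NormedAddCommGroup H] [InnerProductSpace ℂ H] [CompleteSpace H]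

/-- a set of operators with a tracial vector which is cyclic for the commutant -/
structure Vac (X : Set (H →L[ℂ] H)) (Ω : H) : Prop where
  norm : ‖Ω‖ = 1
  tr : ∀ a ∈ StarAlgebra.adjoin ℂ X, ∀ b ∈ StarAlgebra.adjoin ℂ X,
    ⟪Ω, a (b Ω)⟫_ℂ = ⟪Ω, b (a Ω)⟫_ℂ
  cyc : ∀ (ξ : H) (ε : ℝ), 0 < ε → ∃ c ∈ StarSubalgebra.centralizer ℂ X, ‖ξ - c Ω‖ < ε

variable {X : Set (H →L[ℂ] H)} {Ω : H}

theorem mem_vn {x : H →L[ℂ] H} (hx : x ∈ vnGen X) :
    ∀ g ∈ StarSubalgebra.centralizer ℂ X, g * x = x * g := by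
  have h1 : x ∈ StarSubalgebra.centralizer ℂ
    (StarSubalgebra.centralizer ℂ X : Set (H →L[ℂ] H)) := hx
  rw [StarSubalgebra.mem_centralizer_iff] at h1
  intro g hg
  exact (h1 g hg).1

theorem sub_vn {x : H →L[ℂ] H} (hx : x ∈ X) : x ∈ vnGen X := by
  show x ∈ StarSubalgebra.centralizer ℂ
    (StarSubalgebra.centralizer ℂ X : Set (H →L[ℂ] H))
  rw [StarSubalgebra.mem_centralizer_iff]
  intro g hg
  have hg' : star g ∈ StarSubalgebra.centralizer ℂ X := star_mem hg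
  have hg1 : g ∈ StarSubalgebra.centralizer ℂ X := hg
  rw [StarSubalgebra.mem_centralizer_iff] at hg1 hg'
  exact ⟨(hg1 x hx).1.symm, (hg' x hx).1.symm⟩

/-- simultaneous approximation at two vectors -/
theorem approx2 {x : H →L[ℂ] H} (hx : x ∈ vnGen X) (ξ ζ : H) (ε : ℝ) (hε : 0 < ε) :
    ∃ y ∈ StarAlgebra.adjoin ℂ X, ‖x ξ - y ξ‖ < ε ∧ ‖x ζ - y ζ‖ < ε := by
  obtain ⟨Ξ, h0, h1⟩ : ∃ Ξ : lp (fun _ : ℕ => H) 2, Ξ 0 = ξ ∧ Ξ 1 = ζ := by
    refine ⟨lp.single 2 0 ξ + lp.single 2 1 ζ, ?_, ?_⟩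
    · rw [lp.coeFn_add, Pi.add_apply, lp.single_apply_self,
        lp.single_apply_ne _ _ _ (by norm_num), add_zero]
    · rw [lp.coeFn_add, Pi.add_apply, lp.single_apply_self,
        lp.single_apply_ne _ _ _ (by norm_num), zero_add]
  obtain ⟨y, hy, hyε⟩ := vnd_main (StarAlgebra.adjoin ℂ X) x (by
      intro e he
      apply mem_vn hx
      rw [StarSubalgebra.mem_centralizer_iff]
      intro g hg
      have hz1 : g ∈ StarAlgebra.adjoin ℂ X := StarAlgebra.subset_adjoin ℂ X hg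
      exact ⟨he _ hz1, he _ (star_mem hz1)⟩) Ξ ε hε
  refine ⟨y, hy, ?_, ?_⟩
  · refine lt_of_le_of_lt ?_ hyε
    have := lp.norm_apply_le_norm (p := 2) (by simp) (vnd_D x Ξ - vnd_D y Ξ) 0
    rw [lp.coeFn_sub, Pi.sub_apply, vnd_D_apply, vnd_D_apply, h0] at this
    exact this
  · refine lt_of_le_of_lt ?_ hyε
    have := lp.norm_apply_le_norm (p := 2) (by simp) (vnd_D x Ξ - vnd_D y Ξ) 1
    rw [lp.coeFn_sub, Pi.sub_apply, vnd_D_apply, vnd_D_apply, h1] at this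
    exact this

theorem inner_star (a : H →L[ℂ] H) (ξ ζ : H) : ⟪ξ, a ζ⟫_ℂ = ⟪star a ξ, ζ⟫_ℂ := by
  rw [ContinuousLinearMap.star_eq_adjoint, ContinuousLinearMap.adjoint_inner_left]

/-- one step of the extension of the trace identity -/
theorem tr_step (z : H →L[ℂ] H)
    (hz : ∀ a ∈ StarAlgebra.adjoin ℂ X, ⟪Ω, a (z Ω)⟫_ℂ = ⟪Ω, z (a Ω)⟫_ℂ)
    {x : H →L[ℂ] H} (hx : x ∈ vnGen X) : ⟪Ω, x (z Ω)⟫_ℂ = ⟪Ω, z (x Ω)⟫_ℂ := by
  have key : ∀ ε : ℝ, 0 < ε → ‖⟪Ω, x (z Ω)⟫_ℂ - ⟪Ω, z (x Ω)⟫_ℂ‖ ≤ (‖Ω‖ + ‖star z Ω‖) * ε := by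
    intro ε hε
    obtain ⟨y, hy, h1, h2⟩ := approx2 hx (z Ω) Ω ε hε
    have e : ⟪Ω, x (z Ω)⟫_ℂ - ⟪Ω, z (x Ω)⟫_ℂ =
        ⟪Ω, x (z Ω) - y (z Ω)⟫_ℂ - ⟪star z Ω, x Ω - y Ω⟫_ℂ := by
      rw [inner_sub_right, inner_sub_right, hz y hy, inner_star z Ω (x Ω), inner_star z Ω (y Ω)]
      ring
    rw [e]
    refine (norm_sub_le _ _).trans ?_
    have h3 := norm_inner_le_norm (𝕜 := ℂ) Ω (x (z Ω) - y (z Ω))
    have h4 := norm_inner_le_norm (𝕜 := ℂ) (star z Ω) (x Ω - y Ω)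
    have h5 := norm_nonneg Ω
    have h6 := norm_nonneg (star z Ω)
    nlinarith
  have h0 : ‖⟪Ω, x (z Ω)⟫_ℂ - ⟪Ω, z (x Ω)⟫_ℂ‖ ≤ 0 := by
    refine le_of_forall_pos_le_add fun δ hδ => ?_
    have h5 := norm_nonneg Ω
    have h6 := norm_nonneg (star z Ω)
    have := key (δ / (‖Ω‖ + ‖star z Ω‖ + 1)) (by positivity)
    refine this.trans ?_
    rw [← mul_div_assoc, div_le_iff₀ (by positivity)]
    nlinarith
  exact sub_eq_zero.1 (norm_le_zero_iff.1 h0)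

theorem Vac.tr2 (h : Vac X Ω) {x z : H →L[ℂ] H} (hx : x ∈ vnGen X) (hz : z ∈ vnGen X) :
    ⟪Ω, x (z Ω)⟫_ℂ = ⟪Ω, z (x Ω)⟫_ℂ := by
  refine tr_step z (fun a ha => ?_) hx
  exact (tr_step a (fun b hb => h.tr b hb a ha) hz).symm

theorem Vac.sep (h : Vac X Ω) {x : H →L[ℂ] H} (hx : x ∈ vnGen X) (h0 : x Ω = 0) : x = 0 := by
  ext ξ
  rw [ContinuousLinearMap.zero_apply, ← norm_le_zero_iff]
  refine le_of_forall_pos_le_add fun δ hδ => ?_
  obtain ⟨c, hc, hξ⟩ := h.cyc ξ (δ / (‖x‖ + 1)) (by positivity)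
  have h1 : x (c Ω) = 0 := by
    have := congrArg (fun T : H →L[ℂ] H => T Ω) (mem_vn hx c hc)
    have h2 : c (x Ω) = x (c Ω) := this
    rw [← h2, h0, map_zero]
  have h2 : x ξ = x (ξ - c Ω) := by rw [map_sub, h1, sub_zero]
  rw [h2, zero_add]
  refine (x.le_opNorm _).trans ?_
  have h3 := norm_nonneg x
  rw [lt_div_iff₀ (by positivity)] at hξ
  nlinarith [norm_nonneg (ξ - c Ω)]

/-- the tracial von Neumann algebra -/
noncomputable def Vac.tvn (h : Vac X Ω) : TVN where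
  H := H
  N := vnGen X
  τ :=
    { toFun := fun x => ⟪Ω, (x : H →L[ℂ] H) Ω⟫_ℂ
      map_add' := fun x y => inner_add_right _ _ _
      map_smul' := fun c x => inner_smul_right _ _ _ }
  map_one := by
    show ⟪Ω, Ω⟫_ℂ = 1
    rw [inner_self_eq_norm_sq_to_K, h.norm]
    simp
  tracial x y := h.tr2 x.2 y.2
  faithful x hx := by
    have h1 : ⟪Ω, (star x.1) (x.1 Ω)⟫_ℂ = 0 := hx
    rw [inner_star, star_star, inner_self_eq_norm_sq_to_K] at h1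
    have h2 : x.1 Ω = 0 := by
      have h3 : ((‖x.1 Ω‖ : ℂ)) = 0 := by
        exact pow_eq_zero_iff two_ne_zero |>.1 h1
      exact norm_eq_zero.1 (Complex.ofReal_eq_zero.1 h3)
    exact Subtype.ext (h.sep x.2 h2)
  normal := by
    refine ⟨fun k => if k = 0 then Ω else 0, ?_, fun x => ?_⟩
    · refine summable_of_ne_finset_zero (s := {0}) fun k hk => ?_
      rw [Finset.mem_singleton] at hk
      simp only [if_neg hk, norm_zero]
      norm_num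
    · show ⟪Ω, (x : H →L[ℂ] H) Ω⟫_ℂ = _
      rw [tsum_eq_single 0]
      · simp
      · intro k hk
        simp only [if_neg hk, inner_zero_left]

/-- elements of the algebra -/
noncomputable def Vac.el (h : Vac X Ω) (x : H →L[ℂ] H) (hx : x ∈ vnGen X) : h.tvn.E := ⟨x, hx⟩

theorem Vac.tau (h : Vac X Ω) (x : h.tvn.E) : h.tvn.τ x = ⟪Ω, x.1 Ω⟫_ℂ := rfl

end Pool.Agent.U108.EC
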